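import Pool.Agent.Helper94.BR.Mo

/-!
# Project DV, block WILD: independence of decreasing events in separated collars

`E i` are decreasing events (zeros on given sets, for instance) in pairwise disjoint collars `L i`.
Upper bound (`sep_prod_le`): `P(Sep X Y, all E i) ≤ ∏ P_(L i)(E i) P(Sep X Y)` for collars in `Y`.
Lower bound (`sep_prod_ge`): `∏ P_(L i)(E i) P(F, all Sep (A i) (L i)ᶜ) ≤ P(F, all Sep (A i) (L i)ᶜ, all E i)`
for an event `F` off the collars and `E i` depending on the heights on `nb (A i)`.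
Both also for the floating measure.
-/

open Finset Filter Topology

namespace DV

open RP4 (V Adj bdry mem_bdry bdry_subset BdryPar IsHom Om Zs mem_Om mem_Zs Om_nonempty flat
  flat_mem_Zs par dom avg mu Loc Deloc)

/-- zeros on `S` -/
def Zer (S : Set V) (g : V → ℤ) : Prop := ∀ v ∈ S, g v = 0

lemma dec_zer (S : Set V) : Dec (Zer S) := by
  refine ⟨fun g => forall₂_congr fun v _ => abs_eq_zero, fun g g' h0 hle h v hv => ?_⟩
  have h1 := h v hv
  have h2 := h0 v
  have h3 := hle v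
  omega

lemma zer_loc {S : Set V} {g g' : V → ℤ} (h : ∀ v ∈ S, g v = g' v) : Zer S g ↔ Zer S g' :=
  forall₂_congr fun v hv => by rw [h v hv]

/-- probability of zeros on `S` in the flat domain `L` -/
noncomputable def phi (L : Finset V) (S : Set V) : ℝ := pr (Om L) (Zer S)

lemma dec_all {ι : Type*} {I : Finset ι} {E : ι → (V → ℤ) → Prop} (h : ∀ i ∈ I, Dec (E i)) :
    Dec fun g => ∀ i ∈ I, E i g :=
  ⟨fun g => forall₂_congr fun i hi => (h i hi).abs g, fun g g' h0 hle h1 i hi =>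
    (h i hi).mono g g' h0 hle (h1 i hi)⟩

lemma zs_mono {D : Finset V} {p : ℤ} {Z Z' : Finset V} (hZ : bdry D ⊆ Z) (hZZ : Z ⊆ Z')
    {g : V → ℤ} (hg : g ∈ Zs D p Z') : g ∈ Zs D p Z := by
  rw [mem_Zs (hZ.trans hZZ)] at hg
  exact (mem_Zs hZ).2 ⟨hg.1, fun v hv => hg.2 v (hZZ hv)⟩

/-- more zeros make decreasing events more likely -/
lemma zs_dec {D : Finset V} {p : ℤ} {Z Z' : Finset V} (hZ : bdry D ⊆ Z) (hZZ : Z ⊆ Z')
    (hne : (Zs D p Z').Nonempty) {E : (V → ℤ) → Prop} (hE : Dec E) :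
    pr (Zs D p Z) E ≤ pr (Zs D p Z') E := by
  have hne' : (Zs D p Z).Nonempty := hne.imp fun g hg => zs_mono hZ hZZ hg
  have h : pr (Zs D p Z') (fun g => ¬ E g) ≤ pr (Zs D p Z) (fun g => ¬ E g) :=
    zs_anti hZ hZZ hne hE.not.incF
  rw [pr_not hne, pr_not hne'] at h
  linarith

lemma even_of_zero {D : Finset V} {g : V → ℤ} (hg : IsHom D 0 g) {v : V} (hv : v ∈ D)
    (h : g v = 0) : Even (par v) := by
  have h1 := hg.par v hv
  rw [h] at h1
  rw [Int.even_iff] at h1 ⊢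
  omega

lemma zs_union_ne {D Z W : Finset V} (hZ : bdry D ⊆ Z) (hZD : Z ⊆ D) (hW : W ⊆ D)
    (hWp : ∀ v ∈ W, Even (par v)) (hne : (Zs D 0 Z).Nonempty) : (Zs D 0 (Z ∪ W)).Nonempty := by
  obtain ⟨g, hg⟩ := hne
  rw [mem_Zs hZ] at hg
  refine ⟨flat D 0, flat_mem_Zs (hZ.trans Finset.subset_union_left) (Finset.union_subset hZD hW) ?_⟩
  intro v hv
  rw [sub_zero]
  rcases Finset.mem_union.1 hv with h | h
  · exact even_of_zero hg.1 (hZD h) (hg.2 v h)
  · exact hWp v h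

/-- the heights in `L` are independent of those off `L`, if they vanish on the boundary of `L` -/
theorem zs_indep {D Z L : Finset V} (hZ : bdry D ⊆ Z) (hLD : L ⊆ D) (hL : BdryPar L 0)
    (hbL : bdry L ⊆ Z) (hZL : ∀ v ∈ Z, v ∈ L → v ∈ bdry L) {E F : (V → ℤ) → Prop}
    (hE : ∀ g g' : V → ℤ, (∀ v ∈ L, g v = g' v) → (E g ↔ E g'))
    (hF : ∀ g g' : V → ℤ, (∀ v, v ∉ L → g v = g' v) → (F g ↔ F g')) :
    pr (Zs D 0 Z) (fun g => F g ∧ E g) = pr (Zs D 0 Z) F * pr (Om L) E := by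
  classical
  set A := (Zs D 0 Z).filter F with hA
  rw [pr_filter (A' := A) (E := F) (F := E) fun g => Finset.mem_filter]
  rcases A.eq_empty_or_nonempty with h0 | hne
  · have h1 : pr (Zs D 0 Z) F = 0 := by
      rw [pr_eq, ← hA, h0, Finset.card_empty, Nat.cast_zero, zero_div]
    rw [h1, zero_mul, zero_mul]
  · congr 1
    have hmA : ∀ g ∈ A, IsHom D 0 g ∧ (∀ v ∈ Z, g v = 0) ∧ F g := fun g hg => by
      obtain ⟨h1, h2⟩ := Finset.mem_filter.1 hg
      rw [mem_Zs hZ] at h1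
      exact ⟨h1.1, h1.2, h2⟩
    have hmO : ∀ g ∈ A, g ∈ Om D ∧ ∀ v ∈ bdry L, g v = 0 := fun g hg =>
      ⟨mem_Om.2 ⟨(hmA g hg).1, fun v hv => (hmA g hg).2.1 v (hZ hv)⟩,
        fun v hv => (hmA g hg).2.1 v (hbL hv)⟩
    refine avg_swap (L : Set V)ᶜ hne (Om_nonempty hL) ?_ ?_ ?_
    · intro g hg u hu
      have h1 := (locH_Om D).gl L hLD g (hmO g hg).1 (hmO g hg).2 u hu
      refine Finset.mem_filter.2 ⟨(mem_Zs hZ).2 ⟨(mem_Om.1 h1).1, fun v hv => ?_⟩, ?_⟩
      · by_cases hvL : v ∈ L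
        · rw [glu_out (R := (L : Set V)ᶜ) fun h => h (Finset.mem_coe.2 hvL)]
          exact (mem_Om.1 hu).2 v (hZL v hv hvL)
        · rw [glu_in (R := (L : Set V)ᶜ) fun h => hvL (Finset.mem_coe.1 h)]
          exact (hmA g hg).2.1 v hv
      · refine (hF g _ fun v hv => ?_).1 (hmA g hg).2.2
        rw [glu_in (R := (L : Set V)ᶜ) fun h => hv (Finset.mem_coe.1 h)]
    · intro g hg u hu
      have h2 := (locH_Om D).rst L hLD g (hmO g hg).1 (hmO g hg).2
      have h3 : glu (L : Set V)ᶜ u g = glu (L : Set V)ᶜ 0 g := by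
        funext v
        by_cases hv : v ∈ (L : Set V)ᶜ
        · rw [glu_in hv, glu_in hv]
          exact (mem_Om.1 hu).1.off v fun h => hv (Finset.mem_coe.2 h)
        · rw [glu_out hv, glu_out hv]
      rw [h3]
      exact h2
    · intro g g' h
      have h1 := hE g g' fun v hv => h v fun h => h (Finset.mem_coe.2 hv)
      simp only [h1]

/-- **upper bound**: decreasing events in disjoint flat collars -/
theorem zs_prod_le {ι : Type*} (I : Finset ι) {D : Finset V} {L : ι → Finset V}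
    {E : ι → (V → ℤ) → Prop} (hLD : ∀ i ∈ I, L i ⊆ D) (hL : ∀ i ∈ I, BdryPar (L i) 0)
    (hdis : ∀ i ∈ I, ∀ j ∈ I, i ≠ j → Disjoint (L i) (L j)) (hE : ∀ i ∈ I, Dec (E i))
    (hEl : ∀ i ∈ I, ∀ g g' : V → ℤ, (∀ v ∈ L i, g v = g' v) → (E i g ↔ E i g')) {Z : Finset V}
    (hZ : bdry D ⊆ Z) (hZD : Z ⊆ D) (hZL : ∀ i ∈ I, ∀ v ∈ Z, v ∈ L i → v ∈ bdry (L i)) :
    pr (Zs D 0 Z) (fun g => ∀ i ∈ I, E i g) ≤ ∏ i ∈ I, pr (Om (L i)) (E i) := by
  classical
  induction I using Finset.induction_on generalizing Z with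
  | empty =>
    rw [Finset.prod_empty]
    exact pr_le_one _ _
  | insert j I hj ih =>
    have mI : ∀ i ∈ I, i ∈ insert j I := fun i hi => Finset.mem_insert_of_mem hi
    have mj : j ∈ insert j I := Finset.mem_insert_self j I
    have hne : ∀ i ∈ I, i ≠ j := fun i hi h => hj (h ▸ hi)
    rw [Finset.prod_insert hj]
    rcases (Zs D 0 Z).eq_empty_or_nonempty with h0 | hZn
    · rw [pr_eq, h0, Finset.card_empty, Nat.cast_zero, div_zero]
      exact mul_nonneg (pr_nonneg _ _) (Finset.prod_nonneg fun i _ => pr_nonneg _ _)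
    · have hWD : bdry (L j) ⊆ D := (bdry_subset (L j)).trans (hLD j mj)
      have hZ'n := zs_union_ne hZ hZD hWD (fun v hv => by
        have := hL j mj v hv
        rwa [sub_zero] at this) hZn
      have hZ' : bdry D ⊆ Z ∪ bdry (L j) := hZ.trans Finset.subset_union_left
      refine (zs_dec hZ Finset.subset_union_left hZ'n (dec_all hE)).trans ?_
      have h1 : pr (Zs D 0 (Z ∪ bdry (L j))) (fun g => ∀ i ∈ insert j I, E i g) =
          pr (Zs D 0 (Z ∪ bdry (L j))) (fun g => (∀ i ∈ I, E i g) ∧ E j g) :=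
        pr_congr fun g _ => by
          rw [Finset.forall_mem_insert]
          exact and_comm
      rw [h1, zs_indep hZ' (hLD j mj) (hL j mj) Finset.subset_union_right (fun v hv hvL => by
          rcases Finset.mem_union.1 hv with h | h
          · exact hZL j mj v h hvL
          · exact h) (hEl j mj) (F := fun g => ∀ i ∈ I, E i g) (fun g g' h =>
          forall₂_congr fun i hi => hEl i (mI i hi) g g' fun v hv => h v fun hvj =>
            Finset.disjoint_left.1 (hdis i (mI i hi) j mj (hne i hi)) hv hvj), mul_comm]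
      refine mul_le_mul_of_nonneg_left ?_ (pr_nonneg _ _)
      refine ih (fun i hi => hLD i (mI i hi)) (fun i hi => hL i (mI i hi))
        (fun i hi k hk => hdis i (mI i hi) k (mI k hk)) (fun i hi => hE i (mI i hi))
        (fun i hi => hEl i (mI i hi)) hZ' (Finset.union_subset hZD hWD) fun i hi v hv hvi => ?_
      rcases Finset.mem_union.1 hv with h | h
      · exact hZL i (mI i hi) v h hvi
      · exact absurd (bdry_subset (L j) h)
          (Finset.disjoint_left.1 (hdis i (mI i hi) j mj (hne i hi)) hvi)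

/-- domain monotonicity for decreasing events -/
lemma om_dec {U D : Finset V} (hUD : U ⊆ D) (hU : BdryPar U 0) {E : (V → ℤ) → Prop} (hE : Dec E)
    (hEl : ∀ g g' : V → ℤ, (∀ v ∈ U, g v = g' v) → (E g ↔ E g')) : pr (Om D) E ≤ pr (Om U) E := by
  have h := zs_prod_le (ι := Unit) {()} (D := D) (L := fun _ => U) (E := fun _ => E)
    (fun _ _ => hUD) (fun _ _ => hU) (fun _ _ _ _ h => absurd rfl h) (fun _ _ => hE)
    (fun _ _ => hEl) (Z := bdry D) subset_rfl (bdry_subset D) fun _ _ v hv hvU => by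
      obtain ⟨_, w, hw, hwD⟩ := mem_bdry.1 hv
      exact mem_bdry.2 ⟨hvU, w, hw, fun h => hwD (hUD h)⟩
  rw [Finset.prod_singleton] at h
  refine le_trans (le_of_eq (pr_congr fun g _ => ?_)) h
  simp

/-- **upper bound after the exploration from inside** -/
theorem sep_prod_le {ι : Type*} (I : Finset ι) {D : Finset V} (hD : BdryPar D 0) {X Y : Set V}
    (hXY : Disjoint X (nb Y)) (hYD : Yᶜ ⊆ (D : Set V)) {L : ι → Finset V}
    {E : ι → (V → ℤ) → Prop} (hLY : ∀ i ∈ I, (L i : Set V) ⊆ Y) (hLD : ∀ i ∈ I, L i ⊆ D)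
    (hL : ∀ i ∈ I, BdryPar (L i) 0) (hdis : ∀ i ∈ I, ∀ j ∈ I, i ≠ j → Disjoint (L i) (L j))
    (hE : ∀ i ∈ I, Dec (E i))
    (hEl : ∀ i ∈ I, ∀ g g' : V → ℤ, (∀ v ∈ L i, g v = g' v) → (E i g ↔ E i g')) :
    ∑ g ∈ Om D, ic (Sep X Y) g * ic (fun g => ∀ i ∈ I, E i g) g ≤
      (∏ i ∈ I, pr (Om (L i)) (E i)) * ∑ g ∈ Om D, ic (Sep X Y) g := by
  classical
  set κ := ∏ i ∈ I, pr (Om (L i)) (E i) with hκ
  set F : (V → ℤ) → ℝ := ic (fun g => ∀ i ∈ I, E i g) with hFdef
  set T := (Om D).filter fun g => Sep X Y g with hT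
  have e1 : ∑ g ∈ Om D, ic (Sep X Y) g * F g = ∑ g ∈ T, F g := by
    rw [hT, Finset.sum_filter]
    refine Finset.sum_congr rfl fun g _ => ?_
    unfold ic
    split_ifs <;> simp
  have e2 : ∑ g ∈ Om D, ic (Sep X Y) g = ∑ g ∈ T, (1 : ℝ) := by
    rw [hT, Finset.sum_filter]
    exact Finset.sum_congr rfl fun g _ => rfl
  rw [e1, e2, Finset.mul_sum, ← Finset.sum_fiberwise_of_maps_to (s := T) (t := T.image (rv X))
    (g := rv X) (fun g hg => Finset.mem_image_of_mem _ hg) fun g => F g,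
    ← Finset.sum_fiberwise_of_maps_to (s := T) (t := T.image (rv X)) (g := rv X)
    (fun g hg => Finset.mem_image_of_mem _ hg) fun g => κ * (1 : ℝ)]
  refine Finset.sum_le_sum fun R hR => ?_
  obtain ⟨g₀, hg₀, hR₀⟩ := Finset.mem_image.1 hR
  have hRY : Disjoint R (nb Y) := hR₀ ▸ (sep_iff hXY).1 (Finset.mem_filter.1 hg₀).2
  have hfib : T.filter (fun g => rv X g = R) = (Om D).filter fun g => rv X g = R := by
    ext g
    rw [hT, Finset.mem_filter, Finset.mem_filter, Finset.mem_filter]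
    constructor
    · rintro ⟨⟨h1, -⟩, h2⟩
      exact ⟨h1, h2⟩
    · rintro ⟨h1, h2⟩
      exact ⟨⟨h1, (sep_iff hXY).2 (by rw [h2]; exact hRY)⟩, h2⟩
  rw [hfib]
  set TR := (Om D).filter fun g => rv X g = R with hTR
  have hne : TR.Nonempty := ⟨g₀, Finset.mem_filter.2 ⟨(Finset.mem_filter.1 hg₀).1, hR₀⟩⟩
  have hYR : ∀ v ∈ Y, v ∉ R := fun v hv hvR => Set.disjoint_left.1 hRY hvR (sub_nb _ hv)
  have hYn : ∀ v ∈ Y, v ∉ nb R := by
    rintro v hv (hvR | ⟨u, hu, huv⟩)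
    · exact hYR v hv hvR
    · exact Set.disjoint_left.1 hRY hu (Or.inr ⟨v, hv, adj_symm huv⟩)
  have hnR : nb R ⊆ (D : Set V) := fun v hv => hYD fun hvY => hYn v hvY hv
  have m1 := in_markov hD (X := X) hnR hne (F := F) fun g g' h => by
    refine ic_congr (forall₂_congr fun i hi => hEl i hi g g' fun v hv => h v ?_)
    exact hYR v (hLY i hi (Finset.mem_coe.2 hv))
  have m2 : avg (Zs D 0 (ZR D (nb R))) F ≤ κ := by
    refine zs_prod_le I hLD hL hdis hE hEl (bdry_ZR _ _) ?_ ?_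
    · intro v hv
      rcases mem_ZR.1 hv with h | h
      · exact bdry_subset D h
      · exact h.1
    · intro i hi v hv hvi
      rcases mem_ZR.1 hv with h | h
      · obtain ⟨_, w, hw, hwD⟩ := mem_bdry.1 h
        exact mem_bdry.2 ⟨hvi, w, hw, fun h => hwD (hLD i hi h)⟩
      · exact absurd h.2.1 (hYn v (hLY i hi (Finset.mem_coe.2 hvi)))
  have hc : (0 : ℝ) < TR.card := by exact_mod_cast hne.card_pos
  rw [← m1, avg, div_le_iff₀ hc] at m2
  rw [Finset.sum_const, nsmul_eq_mul, mul_one, mul_comm]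
  exact m2

/-- one step of the lower bound -/
theorem sep_ge_one {D L : Finset V} (hLD : L ⊆ D) {A : Set V} (hA : Disjoint A (nb (L : Set V)ᶜ))
    {E F : (V → ℤ) → Prop} (hE : Dec E)
    (hEl : ∀ g g' : V → ℤ, (∀ v ∈ nb A, g v = g' v) → (E g ↔ E g'))
    (hF : ∀ g g' : V → ℤ, (∀ v, v ∉ L → g v = g' v) → (F g ↔ F g')) :
    pr (Om L) E * ∑ g ∈ Om D, ic F g * ic (Sep A (L : Set V)ᶜ) g ≤
      ∑ g ∈ Om D, ic F g * (ic (Sep A (L : Set V)ᶜ) g * ic E g) := by
  classical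
  have hS : LocH L ((Om D).filter F) := by
    refine ⟨fun U hU g hg h0 => ?_, fun U hU g hg h0 u hu => ?_⟩
    · exact (locH_Om D).rst U (hU.trans hLD) g (Finset.mem_filter.1 hg).1 h0
    · obtain ⟨h1, h2⟩ := Finset.mem_filter.1 hg
      refine Finset.mem_filter.2 ⟨(locH_Om D).gl U (hU.trans hLD) g h1 h0 u hu, ?_⟩
      refine (hF g _ fun v hv => ?_).1 h2
      rw [glu_in (R := (U : Set V)ᶜ) fun h => hv (hU (Finset.mem_coe.1 h))]
  have h2 : ∀ g : V → ℤ, Sep A (L : Set V)ᶜ g ↔ Disjoint (nb A) (rv (L : Set V)ᶜ g) := fun g => by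
    have h3 : Disjoint (L : Set V)ᶜ (nb A) := (disj_nb.1 hA).symm
    rw [disjoint_comm, ← sep_iff h3]
    exact ⟨Sep.symm, Sep.symm⟩
  have hnA : nb A ⊆ (L : Set V) := fun v hv => by
    by_contra h
    exact Set.disjoint_left.1 (disj_nb.1 hA) hv h
  have h1 := out_markov hS (Y := (L : Set V)ᶜ) (by rw [compl_compl]) (A := nb A)
    (F := fun g => -ic E g) (fun g g' hg => by rw [ic_congr (hEl g g' hg)]) (c := -pr (Om L) E)
    fun U hU hAU hUL => by
      rw [compl_compl] at hUL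
      have h4 : pr (Om L) E ≤ pr (Om U) E := om_dec (Finset.coe_subset.1 hUL) hU hE fun g g' h =>
        hEl g g' fun v hv => h v (Finset.mem_coe.1 (hAU hv))
      have h5 : avg (Om U) (fun g => -ic E g) = -pr (Om U) E := by
        unfold avg pr avg ic
        rw [Finset.sum_neg_distrib, neg_div]
      rw [h5]
      linarith
  have e1 : ∑ g ∈ Om D, ic F g * ic (Sep A (L : Set V)ᶜ) g =
      ∑ g ∈ (Om D).filter F, (if Disjoint (nb A) (rv (L : Set V)ᶜ g) then (1 : ℝ) else 0) := by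
    rw [Finset.sum_filter]
    refine Finset.sum_congr rfl fun g _ => ?_
    unfold ic
    simp only [h2 g]
    by_cases hF : F g <;> simp [hF]
  have e2 : ∑ g ∈ Om D, ic F g * (ic (Sep A (L : Set V)ᶜ) g * ic E g) =
      -∑ g ∈ (Om D).filter F, (if Disjoint (nb A) (rv (L : Set V)ᶜ g) then -ic E g else 0) := by
    rw [Finset.sum_filter, ← Finset.sum_neg_distrib]
    refine Finset.sum_congr rfl fun g _ => ?_
    unfold ic
    simp only [h2 g]
    by_cases hF : F g <;> by_cases h3 : Disjoint (nb A) (rv (L : Set V)ᶜ g) <;> simp [hF, h3]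
  rw [e1, e2]
  linarith

/-- **lower bound** -/
theorem sep_prod_ge {ι : Type*} (I : Finset ι) {D : Finset V} {L : ι → Finset V} {A : ι → Set V}
    {E : ι → (V → ℤ) → Prop} (hLD : ∀ i ∈ I, L i ⊆ D)
    (hA : ∀ i ∈ I, Disjoint (A i) (nb (L i : Set V)ᶜ))
    (hdis : ∀ i ∈ I, ∀ j ∈ I, i ≠ j → Disjoint (L i) (L j)) (hE : ∀ i ∈ I, Dec (E i))
    (hEl : ∀ i ∈ I, ∀ g g' : V → ℤ, (∀ v ∈ nb (A i), g v = g' v) → (E i g ↔ E i g'))
    {F : (V → ℤ) → Prop}
    (hF : ∀ i ∈ I, ∀ g g' : V → ℤ, (∀ v, v ∉ L i → g v = g' v) → (F g ↔ F g')) :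
    (∏ i ∈ I, pr (Om (L i)) (E i)) *
        ∑ g ∈ Om D, ic (fun g => F g ∧ ∀ i ∈ I, Sep (A i) (L i : Set V)ᶜ g) g ≤
      ∑ g ∈ Om D, ic (fun g => F g ∧ ∀ i ∈ I, Sep (A i) (L i : Set V)ᶜ g ∧ E i g) g := by
  classical
  induction I using Finset.induction_on generalizing F with
  | empty => simp
  | insert j I hj ih =>
    have mI : ∀ i ∈ I, i ∈ insert j I := fun i hi => Finset.mem_insert_of_mem hi
    have mj : j ∈ insert j I := Finset.mem_insert_self j I
    have hne : ∀ i ∈ I, i ≠ j := fun i hi h => hj (h ▸ hi)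
    have hnA : ∀ i ∈ insert j I, nb (A i) ⊆ (L i : Set V) := fun i hi v hv => by
      by_contra h
      exact Set.disjoint_left.1 (disj_nb.1 (hA i hi)) hv h
    -- separation in one collar depends only on the heights there
    have hSl : ∀ i ∈ insert j I, ∀ g g' : V → ℤ, (∀ v ∈ L i, g v = g' v) →
        (Sep (A i) (L i : Set V)ᶜ g ↔ Sep (A i) (L i : Set V)ᶜ g') := fun i hi g g' h =>
      sep_loc (disj_nb.1 (hA i hi)) fun v hv => h v (by
        rw [Set.mem_compl_iff, not_not] at hv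
        exact Finset.mem_coe.1 hv)
    have hoff : ∀ i ∈ I, ∀ v ∈ L i, v ∉ L j := fun i hi v hv =>
      Finset.disjoint_left.1 (hdis i (mI i hi) j mj (hne i hi)) hv
    have hoff' : ∀ i ∈ I, ∀ v ∈ L j, v ∉ L i := fun i hi v hv h => hoff i hi v h hv
    have h1 := ih (F := fun g => F g ∧ Sep (A j) (L j : Set V)ᶜ g) (fun i hi => hLD i (mI i hi))
      (fun i hi => hA i (mI i hi)) (fun i hi k hk => hdis i (mI i hi) k (mI k hk))
      (fun i hi => hE i (mI i hi)) (fun i hi => hEl i (mI i hi)) (fun i hi g g' h =>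
        and_congr (hF i (mI i hi) g g' h) (hSl j mj g g' fun v hv => h v (hoff' i hi v hv)))
    have h2 := sep_ge_one (hLD j mj) (hA j mj) (hE j mj) (hEl j mj)
      (F := fun g => F g ∧ ∀ i ∈ I, Sep (A i) (L i : Set V)ᶜ g ∧ E i g) (fun g g' h =>
        and_congr (hF j mj g g' h) (forall₂_congr fun i hi =>
          and_congr (hSl i (mI i hi) g g' fun v hv => h v (hoff i hi v hv))
            (hEl i (mI i hi) g g' fun v hv => h v (hoff i hi v
              (Finset.mem_coe.1 (hnA i (mI i hi) hv))))))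
    rw [Finset.prod_insert hj]
    have e1 : ∑ g ∈ Om D, ic (fun g => F g ∧ ∀ i ∈ insert j I, Sep (A i) (L i : Set V)ᶜ g) g =
        ∑ g ∈ Om D, ic (fun g => (F g ∧ Sep (A j) (L j : Set V)ᶜ g) ∧
          ∀ i ∈ I, Sep (A i) (L i : Set V)ᶜ g) g := by
      refine Finset.sum_congr rfl fun g _ => ic_congr ?_
      rw [Finset.forall_mem_insert]
      exact and_assoc.symm
    have e2 : ∑ g ∈ Om D, ic (fun g => (F g ∧ Sep (A j) (L j : Set V)ᶜ g) ∧
          ∀ i ∈ I, Sep (A i) (L i : Set V)ᶜ g ∧ E i g) g =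
        ∑ g ∈ Om D, ic (fun g => F g ∧ ∀ i ∈ I, Sep (A i) (L i : Set V)ᶜ g ∧ E i g) g *
          ic (Sep (A j) (L j : Set V)ᶜ) g := by
      refine Finset.sum_congr rfl fun g _ => ?_
      unfold ic
      by_cases h3 : F g <;> by_cases h4 : Sep (A j) (L j : Set V)ᶜ g <;> simp [h3, h4]
    have e3 : ∑ g ∈ Om D, ic (fun g => F g ∧ ∀ i ∈ I, Sep (A i) (L i : Set V)ᶜ g ∧ E i g) g *
          (ic (Sep (A j) (L j : Set V)ᶜ) g * ic (E j) g) =
        ∑ g ∈ Om D, ic (fun g => F g ∧ ∀ i ∈ insert j I, Sep (A i) (L i : Set V)ᶜ g ∧ E i g) g := by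
      refine Finset.sum_congr rfl fun g _ => ?_
      have h6 : ic (fun g => F g ∧ ∀ i ∈ insert j I, Sep (A i) (L i : Set V)ᶜ g ∧ E i g) g =
          ic (fun g => F g ∧ (Sep (A j) (L j : Set V)ᶜ g ∧ E j g) ∧
            ∀ i ∈ I, Sep (A i) (L i : Set V)ᶜ g ∧ E i g) g :=
        ic_congr (by rw [Finset.forall_mem_insert])
      rw [h6]
      unfold ic
      by_cases h3 : F g <;> by_cases h4 : Sep (A j) (L j : Set V)ᶜ g <;> by_cases h5 : E j g <;>
        simp [h3, h4, h5]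
    rw [e1, mul_assoc]
    rw [e2] at h1
    rw [e3] at h2
    exact (mul_le_mul_of_nonneg_left h1 (pr_nonneg _ _)).trans h2

end DV
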