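import Pool.Agent.Helper64.WD.Zw

/-!
# Project DV, block WILD: collars, floating measure

The inequalities of `Zw` for the floating measure; `phi` is positive and invariant under lattice symmetries.
-/

open Finset Filter Topology

namespace DV

open RP4 (V Adj bdry mem_bdry bdry_subset BdryPar IsHom Om Zs mem_Om mem_Zs Om_nonempty flat
  flat_mem_Zs par dom avg mu Loc Deloc)

lemma dom_sub' {s : Finset V} : ∀ᶠ D in dom, s ⊆ D ∧ BdryPar D 0 := by
  rw [RP4.eventually_dom]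
  exact ⟨s, fun D hD hp => ⟨hD, hp⟩⟩

/-- **upper bound**, floating measure -/
theorem M_prod_le (hd : Deloc) {ι : Type*} (I : Finset ι) {X Y : Set V} (hX : X.Nonempty)
    (hXY : Disjoint X (nb Y)) {s : Finset V} (hY : Yᶜ ⊆ (s : Set V)) {L : ι → Finset V}
    {E : ι → (V → ℤ) → Prop} (hLY : ∀ i ∈ I, (L i : Set V) ⊆ Y) (hLs : ∀ i ∈ I, L i ⊆ s)
    (hL : ∀ i ∈ I, BdryPar (L i) 0) (hdis : ∀ i ∈ I, ∀ j ∈ I, i ≠ j → Disjoint (L i) (L j))
    (hE : ∀ i ∈ I, Dec (E i))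
    (hEl : ∀ i ∈ I, ∀ g g' : V → ℤ, (∀ v ∈ L i, g v = g' v) → (E i g ↔ E i g')) :
    Mr (fun g => ic (Sep X Y) g * ic (fun g => ∀ i ∈ I, E i g) g) ≤
      (∏ i ∈ I, pr (Om (L i)) (E i)) * Mp (Sep X Y) := by
  have lE : ∀ g g' : V → ℤ, (∀ x ∈ s, g x = g' x) → ic (fun g => ∀ i ∈ I, E i g) g =
      ic (fun g => ∀ i ∈ I, E i g) g' := fun g g' h =>
    ic_congr (forall₂_congr fun i hi => hEl i hi g g' fun v hv => h v (hLs i hi hv))
  have h1 := Mr_le_of hd (PR_sep hX hXY hY lE) (PR_sep' hX hXY hY) (c := 1)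
    (d := ∏ i ∈ I, pr (Om (L i)) (E i)) (by
      filter_upwards [dom_sub hY, dom_sub' (s := s)] with D hD hD'
      rw [one_mul]
      exact sep_prod_le I hD.2 hXY hD.1 hLY (fun i hi => (hLs i hi).trans hD'.1) hL hdis hE hEl)
  rwa [one_mul] at h1

/-- **upper bound**, floating measure, with an increasing function -/
theorem M_prod_pin (hd : Deloc) {ι : Type*} (I : Finset ι) {X X' Y : Set V} (hX' : X'.Nonempty)
    (hXY : Disjoint X (nb Y)) (hXX : Disjoint X' (nb Xᶜ)) {s : Finset V} (hY : Yᶜ ⊆ (s : Set V))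
    {L : ι → Finset V} {E : ι → (V → ℤ) → Prop} (hLY : ∀ i ∈ I, (L i : Set V) ⊆ Y)
    (hLs : ∀ i ∈ I, L i ⊆ s) (hL : ∀ i ∈ I, BdryPar (L i) 0)
    (hdis : ∀ i ∈ I, ∀ j ∈ I, i ≠ j → Disjoint (L i) (L j)) (hE : ∀ i ∈ I, Dec (E i))
    (hEl : ∀ i ∈ I, ∀ g g' : V → ℤ, (∀ v ∈ L i, g v = g' v) → (E i g ↔ E i g'))
    {G : (V → ℤ) → ℝ} (hG : IncF G)
    (hGl : ∀ g g' : V → ℤ, (∀ v ∈ Y, v ∈ s → g v = g' v) → G g = G g') :
    Mr (fun g => ic (Sep X Y) g * (ic (fun g => ∀ i ∈ I, E i g) g * G g)) * Mp (Sep X' Xᶜ) ≤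
      ((∏ i ∈ I, pr (Om (L i)) (E i)) * Mp (Sep X Y)) *
        Mr (fun g => ic (Sep X' Xᶜ) g * G g) := by
  have hX : X.Nonempty := by
    obtain ⟨v, hv⟩ := hX'
    refine ⟨v, ?_⟩
    by_contra h
    exact Set.disjoint_left.1 hXX hv (sub_nb _ h)
  have hYX : ∀ v ∈ Y, v ∉ X := fun v hv hvX => Set.disjoint_left.1 hXY hvX (sub_nb _ hv)
  have hXs : Xᶜᶜ ⊆ (s : Set V) := by
    rw [compl_compl]
    exact fun v hv => hY fun h => hYX v h hv
  have h1 := M_pin hd hX' hXY hXX hY hG hGl (dec_all hE) fun g g' h =>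
    forall₂_congr fun i hi => hEl i hi g g' fun v hv =>
      h v (hLY i hi (Finset.mem_coe.2 hv)) (hLs i hi hv)
  refine h1.trans (mul_le_mul_of_nonneg_right (M_prod_le hd I hX hXY hY hLY hLs hL hdis hE hEl) ?_)
  exact Mr_nonneg hd (PR_sep hX' hXX hXs fun g g' h => hGl g g' fun v _ hv => h v hv)
    fun g => mul_nonneg (ic_nonneg _ _) (hG.nonneg g)

/-- **lower bound**, floating measure -/
theorem M_prod_ge (hd : Deloc) {ι : Type*} (I : Finset ι) {s : Finset V} {L : ι → Finset V}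
    {A : ι → Set V} {E : ι → (V → ℤ) → Prop} (hLs : ∀ i ∈ I, L i ⊆ s)
    (hA : ∀ i ∈ I, Disjoint (A i) (nb (L i : Set V)ᶜ))
    (hdis : ∀ i ∈ I, ∀ j ∈ I, i ≠ j → Disjoint (L i) (L j)) (hE : ∀ i ∈ I, Dec (E i))
    (hEl : ∀ i ∈ I, ∀ g g' : V → ℤ, (∀ v ∈ nb (A i), g v = g' v) → (E i g ↔ E i g'))
    {F : (V → ℤ) → Prop}
    (hF : ∀ i ∈ I, ∀ g g' : V → ℤ, (∀ v, v ∉ L i → g v = g' v) → (F g ↔ F g'))
    (hP : PR s (ic fun g => F g ∧ ∀ i ∈ I, Sep (A i) (L i : Set V)ᶜ g)) :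
    (∏ i ∈ I, pr (Om (L i)) (E i)) * Mp (fun g => F g ∧ ∀ i ∈ I, Sep (A i) (L i : Set V)ᶜ g) ≤
      Mp (fun g => F g ∧ ∀ i ∈ I, Sep (A i) (L i : Set V)ᶜ g ∧ E i g) := by
  have hnA : ∀ i ∈ I, ∀ v ∈ nb (A i), v ∈ s := fun i hi v hv => hLs i hi (by
    by_contra h
    exact Set.disjoint_left.1 (disj_nb.1 (hA i hi)) hv h)
  have e : (fun g => ic (fun g => F g ∧ ∀ i ∈ I, Sep (A i) (L i : Set V)ᶜ g) g *
      ic (fun g => ∀ i ∈ I, E i g) g) =
      ic (fun g => F g ∧ ∀ i ∈ I, Sep (A i) (L i : Set V)ᶜ g ∧ E i g) := by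
    funext g
    have h1 : (F g ∧ ∀ i ∈ I, Sep (A i) (L i : Set V)ᶜ g ∧ E i g) ↔
        ((F g ∧ ∀ i ∈ I, Sep (A i) (L i : Set V)ᶜ g) ∧ ∀ i ∈ I, E i g) := by
      constructor
      · rintro ⟨h1, h2⟩
        exact ⟨⟨h1, fun i hi => (h2 i hi).1⟩, fun i hi => (h2 i hi).2⟩
      · rintro ⟨⟨h1, h2⟩, h3⟩
        exact ⟨h1, fun i hi => ⟨h2 i hi, h3 i hi⟩⟩
    unfold ic
    simp only [h1]
    split_ifs <;> simp_all
  have hP' : PR s (ic fun g => F g ∧ ∀ i ∈ I, Sep (A i) (L i : Set V)ᶜ g ∧ E i g) := by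
    rw [← e]
    exact hP.mul fun g g' h => ic_congr (forall₂_congr fun i hi =>
      hEl i hi g g' fun v hv => h v (hnA i hi v hv))
  have h1 := Mr_le_of hd hP hP' (c := ∏ i ∈ I, pr (Om (L i)) (E i)) (d := 1) (by
    filter_upwards [dom_sub' (s := s)] with D hD
    rw [one_mul]
    exact sep_prod_ge I (fun i hi => (hLs i hi).trans hD.1) hA hdis hE hEl hF)
  rwa [one_mul] at h1

/-! ### the normalisation -/

lemma pr_pos {A : Finset (V → ℤ)} {E : (V → ℤ) → Prop} (h : ∃ g ∈ A, E g) : 0 < pr A E := by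
  classical
  rw [pr_eq]
  obtain ⟨g, hg, hE⟩ := h
  have h1 : 0 < (A.filter E).card := Finset.card_pos.2 ⟨g, Finset.mem_filter.2 ⟨hg, hE⟩⟩
  have h2 : 0 < A.card := Finset.card_pos.2 ⟨g, hg⟩
  positivity

/-- zeros on even sites have positive probability -/
lemma phi_pos {L : Finset V} (hL : BdryPar L 0) {S : Set V} (hS : ∀ v ∈ S, Even (par v)) :
    0 < phi L S := by
  classical
  refine pr_pos ⟨flat L 0, flat_mem_Zs subset_rfl (bdry_subset L) hL, fun v hv => ?_⟩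
  have h1 : flat L 0 ∈ Zs L 0 (bdry L ∪ L.filter fun v => v ∈ S) :=
    flat_mem_Zs Finset.subset_union_left (Finset.union_subset (bdry_subset L)
      (Finset.filter_subset _ _)) fun v hv => by
        rcases Finset.mem_union.1 hv with h | h
        · exact hL v h
        · rw [sub_zero]
          exact hS v (Finset.mem_filter.1 h).2
  rw [mem_Zs Finset.subset_union_left] at h1
  by_cases hvL : v ∈ L
  · exact h1.2 v (Finset.mem_union_right _ (Finset.mem_filter.2 ⟨hvL, hv⟩))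
  · exact h1.1.off v hvL

/-- a symmetry of the lattice that respects the parity classes -/
structure Sym (e : V ≃ V) : Prop where
  adj : ∀ u v, Adj u v → Adj (e u) (e v)
  adj' : ∀ u v, Adj u v → Adj (e.symm u) (e.symm v)
  par : ∀ v, Even (RP4.par (e v) - RP4.par v)

lemma Sym.symm {e : V ≃ V} (h : Sym e) : Sym e.symm := by
  refine ⟨h.adj', fun u v huv => ?_, fun v => ?_⟩
  · exact h.adj u v huv
  · have h1 := h.par (e.symm v)
    rw [Equiv.apply_symm_apply] at h1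
    have h2 := h1.neg
    rwa [neg_sub] at h2

lemma mem_map_sym {e : V ≃ V} {L : Finset V} {v : V} :
    v ∈ L.map e.toEmbedding ↔ e.symm v ∈ L := by
  rw [Finset.mem_map]
  constructor
  · rintro ⟨u, hu, rfl⟩
    show e.symm (e u) ∈ L
    rwa [Equiv.symm_apply_apply]
  · intro h
    exact ⟨e.symm v, h, Equiv.apply_symm_apply e v⟩

lemma bdry_map_sym {e : V ≃ V} (h : Sym e) {L : Finset V} {v : V} :
    v ∈ bdry (L.map e.toEmbedding) ↔ e.symm v ∈ bdry L := by
  rw [mem_bdry, mem_bdry, mem_map_sym]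
  refine and_congr_right fun _ => ?_
  constructor
  · rintro ⟨u, huv, hu⟩
    exact ⟨e.symm u, h.adj' _ _ huv, fun h1 => hu (mem_map_sym.2 h1)⟩
  · rintro ⟨u, huv, hu⟩
    refine ⟨e u, ?_, fun h1 => hu ?_⟩
    · have h2 := h.adj _ _ huv
      rwa [Equiv.apply_symm_apply] at h2
    · have h2 := mem_map_sym.1 h1
      rwa [Equiv.symm_apply_apply] at h2

lemma om_map_sym {e : V ≃ V} (h : Sym e) {L : Finset V} {g : V → ℤ} (hg : g ∈ Om L) :
    (fun v => g (e.symm v)) ∈ Om (L.map e.toEmbedding) := by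
  obtain ⟨h1, h2⟩ := mem_Om.1 hg
  refine mem_Om.2 ⟨⟨fun v hv => ?_, fun v hv => ?_, fun u hu v hv huv => ?_⟩, fun v hv => ?_⟩
  · exact h1.off _ fun h3 => hv (mem_map_sym.2 h3)
  · have h3 := h1.par _ (mem_map_sym.1 hv)
    have h4 := h.symm.par v
    have h5 := h3.add h4
    have h6 : g (e.symm v) - RP4.par (e.symm v) - 0 + (RP4.par (e.symm v) - RP4.par v) =
        g (e.symm v) - RP4.par v - 0 := by ring
    rwa [h6] at h5
  · exact h1.step _ (mem_map_sym.1 hu) _ (mem_map_sym.1 hv) (h.adj' _ _ huv)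
  · exact h2 _ ((bdry_map_sym h).1 hv)

/-- probabilities are invariant under symmetries -/
theorem pr_sym {e : V ≃ V} (h : Sym e) (L : Finset V) (E : (V → ℤ) → Prop) :
    pr (Om (L.map e.toEmbedding)) E = pr (Om L) fun g => E fun v => g (e.symm v) := by
  classical
  rw [pr_eq, pr_eq]
  have hback : ∀ g ∈ Om (L.map e.toEmbedding), (fun v => g (e v)) ∈ Om L := by
    intro g hg
    have h1 := om_map_sym h.symm hg
    have h2 : (L.map e.toEmbedding).map e.symm.toEmbedding = L := by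
      ext v
      rw [mem_map_sym, Equiv.symm_symm, mem_map_sym, Equiv.symm_apply_apply]
    rw [h2] at h1
    exact h1
  have e1 : (Om L).card = (Om (L.map e.toEmbedding)).card := by
    refine Finset.card_nbij' (fun g v => g (e.symm v)) (fun g v => g (e v)) ?_ ?_ ?_ ?_
    · intro g hg
      exact om_map_sym h hg
    · intro g hg
      exact hback g hg
    · intro g _
      funext v
      simp
    · intro g _
      funext v
      simp
  have e2 : ((Om L).filter fun g => E fun v => g (e.symm v)).card =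
      ((Om (L.map e.toEmbedding)).filter E).card := by
    refine Finset.card_nbij' (fun g v => g (e.symm v)) (fun g v => g (e v)) ?_ ?_ ?_ ?_
    · intro g hg
      obtain ⟨h1, h2⟩ := Finset.mem_filter.1 hg
      exact Finset.mem_filter.2 ⟨om_map_sym h h1, h2⟩
    · intro g hg
      obtain ⟨h1, h2⟩ := Finset.mem_filter.1 hg
      refine Finset.mem_filter.2 ⟨hback g h1, ?_⟩
      simpa using h2
    · intro g _
      funext v
      simp
    · intro g _
      funext v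
      simp
  rw [e1, e2]

theorem phi_sym {e : V ≃ V} (h : Sym e) (L : Finset V) (S : Set V) :
    phi (L.map e.toEmbedding) (e '' S) = phi L S := by
  unfold phi
  rw [pr_sym h]
  refine pr_congr fun g _ => ?_
  constructor
  · intro h1 v hv
    have h2 := h1 (e v) ⟨v, hv, rfl⟩
    simpa using h2
  · rintro h1 _ ⟨v, hv, rfl⟩
    simpa using h1 v hv

/-- one patch of zeros -/
theorem zs_le_phi {D Z L : Finset V} (hZ : bdry D ⊆ Z) (hZD : Z ⊆ D) (hLD : L ⊆ D)
    (hL : BdryPar L 0) (hZL : ∀ v ∈ Z, v ∈ L → v ∈ bdry L) {S : Set V} (hS : S ⊆ (L : Set V)) :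
    pr (Zs D 0 Z) (Zer S) ≤ phi L S := by
  have h := zs_prod_le (ι := Unit) {()} (D := D) (L := fun _ => L) (E := fun _ => Zer S)
    (fun _ _ => hLD) (fun _ _ => hL) (fun _ _ _ _ h => absurd rfl h) (fun _ _ => dec_zer S)
    (fun _ _ g g' h => zer_loc fun v hv => h v (Finset.mem_coe.1 (hS hv))) (Z := Z) hZ hZD
    fun _ _ => hZL
  rw [Finset.prod_singleton] at h
  refine le_trans (le_of_eq (pr_congr fun g _ => ?_)) h
  simp

private lemma adj_aux {p q r s : ℤ} (h1 : r = p ∨ r = -p) (h2 : s = q ∨ s = -q)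
    (h : |p| + |q| = 1) : |r| + |s| = 1 := by
  rw [abs_eq_abs.2 h1, abs_eq_abs.2 h2, h]

private lemma adj_aux' {p q r s : ℤ} (h1 : r = q ∨ r = -q) (h2 : s = p ∨ s = -p)
    (h : |p| + |q| = 1) : |r| + |s| = 1 := by
  rw [abs_eq_abs.2 h1, abs_eq_abs.2 h2, add_comm, h]

open GF.Lat in
/-- the lattice reflection as a permutation -/
def lrefE {d : ℤ × ℤ} (hd : DirZ d) (m : ℤ) : V ≃ V where
  toFun := lref d m
  invFun := lref d m
  left_inv := lref_lref hd m
  right_inv := lref_lref hd m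

open GF.Lat in
lemma lrefE_apply {d : ℤ × ℤ} (hd : DirZ d) (m : ℤ) (v : V) : lrefE hd m v = lref d m v := rfl

open GF.Lat in
lemma lrefE_symm {d : ℤ × ℤ} (hd : DirZ d) (m : ℤ) : (lrefE hd m).symm = lrefE hd m := rfl

open GF.Lat in
/-- values of the lattice reflection -/
lemma lref_val {d : ℤ × ℤ} (hd : DirZ d) (m : ℤ) :
    ∃ (k l : ℤ), Even (k + l) ∧ ((∀ v : V, lref d m v = (k - v.1, l + v.2)) ∨
      (∀ v : V, lref d m v = (k + v.1, l - v.2)) ∨ (∀ v : V, lref d m v = (k - v.2, l - v.1)) ∨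
      (∀ v : V, lref d m v = (k + v.2, l + v.1))) := by
  rcases hd with rfl | rfl | rfl | rfl | rfl | rfl | rfl | rfl
  · refine ⟨2 * m, 0, ⟨m, by ring⟩, Or.inl fun v => ?_⟩
    unfold lref ld
    ext <;> norm_num
    ring
  · refine ⟨-(2 * m), 0, ⟨-m, by ring⟩, Or.inl fun v => ?_⟩
    unfold lref ld
    ext <;> norm_num
    ring
  · refine ⟨0, 2 * m, ⟨m, by ring⟩, Or.inr (Or.inl fun v => ?_)⟩
    unfold lref ld
    ext <;> norm_num
    ring
  · refine ⟨0, -(2 * m), ⟨-m, by ring⟩, Or.inr (Or.inl fun v => ?_)⟩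
    unfold lref ld
    ext <;> norm_num
    ring
  · refine ⟨m, m, ⟨m, by ring⟩, Or.inr (Or.inr (Or.inl fun v => ?_))⟩
    unfold lref ld
    ext <;> norm_num <;> ring
  · refine ⟨-m, -m, ⟨-m, by ring⟩, Or.inr (Or.inr (Or.inl fun v => ?_))⟩
    unfold lref ld
    ext <;> norm_num <;> ring
  · refine ⟨m, -m, ⟨0, by ring⟩, Or.inr (Or.inr (Or.inr fun v => ?_))⟩
    unfold lref ld
    ext <;> norm_num <;> ring
  · refine ⟨-m, m, ⟨0, by ring⟩, Or.inr (Or.inr (Or.inr fun v => ?_))⟩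
    unfold lref ld
    ext <;> norm_num <;> ring

open GF.Lat in
lemma sym_lref {d : ℤ × ℤ} (hd : DirZ d) (m : ℤ) : Sym (lrefE hd m) := by
  have key : ∀ u v : V, (Adj u v → Adj (lref d m u) (lref d m v)) ∧
      Even (RP4.par (lref d m v) - RP4.par v) := by
    intro u v
    obtain ⟨k, l, hkl, h⟩ := lref_val hd m
    unfold RP4.Adj RP4.par
    rcases h with h | h | h | h <;> rw [h u, h v] <;> refine ⟨fun h1 => ?_, ?_⟩
    · exact adj_aux (Or.inr (by ring)) (Or.inl (by ring)) h1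
    · rw [Int.even_iff] at hkl ⊢
      simp only
      omega
    · exact adj_aux (Or.inl (by ring)) (Or.inr (by ring)) h1
    · rw [Int.even_iff] at hkl ⊢
      simp only
      omega
    · exact adj_aux' (Or.inr (by ring)) (Or.inr (by ring)) h1
    · rw [Int.even_iff] at hkl ⊢
      simp only
      omega
    · exact adj_aux' (Or.inl (by ring)) (Or.inl (by ring)) h1
    · rw [Int.even_iff] at hkl ⊢
      simp only
      omega
  exact ⟨fun u v => (key u v).1, fun u v => (key u v).1, fun v => (key v v).2⟩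

/-- translation by an even vector -/
lemma sym_add (w : V) (hw : Even (RP4.par w)) : Sym (Equiv.addRight w) := by
  refine ⟨fun u v h => ?_, fun u v h => ?_, fun v => ?_⟩
  · unfold RP4.Adj at h ⊢
    exact adj_aux (Or.inl (by simp)) (Or.inl (by simp)) h
  · unfold RP4.Adj at h ⊢
    exact adj_aux (Or.inl (by simp)) (Or.inl (by simp)) h
  · have h1 : RP4.par (Equiv.addRight w v) - RP4.par v = RP4.par w := by
      unfold RP4.par
      simp
      ring
    rw [h1]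
    exact hw

open GF.Lat in
theorem phi_lref {d : ℤ × ℤ} (hd : DirZ d) (m : ℤ) (L : Finset V) (S : Set V) :
    phi (L.map (lrefE hd m).toEmbedding) (lref d m '' S) = phi L S :=
  phi_sym (sym_lref hd m) L S

lemma bdryPar_map {e : V ≃ V} (h : Sym e) {L : Finset V} (hL : BdryPar L 0) :
    BdryPar (L.map e.toEmbedding) 0 := by
  intro v hv
  have h1 := hL _ ((bdry_map_sym h).1 hv)
  have h2 := (h.symm.par v).neg.add h1
  have h3 : -(RP4.par (e.symm v) - RP4.par v) + (RP4.par (e.symm v) - 0) = RP4.par v - 0 := by ring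
  rwa [h3] at h2

end DV
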